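import Pool.Agent.helper81.PJ.Spec

set_option autoImplicit false

open Finset

namespace Pool.Agent.PJ

open Pool.Agent.PY2

theorem MO1_Qd_nonneg (k n : ℕ) (c : ℕ → ℂ) : 0 ≤ Qd k n c :=
  Finset.sum_nonneg fun _ _ => Finset.sum_nonneg fun _ _ => pow_nonneg (norm_nonneg _) _

theorem MO1_mj (k n : ℕ) (hk : 0 < k) (c : ℕ → ℂ) :
    mj k n c ^ (2 * k) = (2 * ((n : ℝ) + 1)) ^ (2 * k) * Qd k n c := by
  unfold mj
  rw [mul_pow]
  congr 1
  rw [← Real.rpow_natCast (Qd k n c ^ (1 / (2 * (k : ℝ)))) (2 * k),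
    ← Real.rpow_mul (MO1_Qd_nonneg k n c)]
  have hk' : (k : ℝ) ≠ 0 := by exact_mod_cast hk.ne'
  have e : 1 / (2 * (k : ℝ)) * ((2 * k : ℕ) : ℝ) = 1 := by
    push_cast
    field_simp
  rw [e, Real.rpow_one]

theorem MO1_block {p : ℕ} (χ : MulChar (ZMod p) ℂ) (x : ZMod p) (W i : ℕ) :
    ‖∑ v ∈ range W, c1 χ x (i * W + v)‖ = Ph χ W (x - ((2 * ((i + 1) * W) : ℕ) : ZMod p)) := by
  unfold Ph
  congr 1
  refine Finset.sum_nbij' (fun v => W - v) (fun v => W - v) ?_ ?_ ?_ ?_ ?_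
  · intro v hv
    rw [Finset.mem_range] at hv
    rw [Finset.mem_Icc]
    omega
  · intro v hv
    rw [Finset.mem_Icc] at hv
    rw [Finset.mem_range]
    omega
  · intro v hv
    rw [Finset.mem_range] at hv
    omega
  · intro v hv
    rw [Finset.mem_Icc] at hv
    omega
  · intro v hv
    rw [Finset.mem_range] at hv
    unfold c1
    have e1 : ((2 * ((i + 1) * W) : ℕ) : ZMod p) =
        ((2 * (i * W + v) : ℕ) : ZMod p) + ((2 * (W - v) : ℕ) : ZMod p) := by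
      rw [← Nat.cast_add]
      congr 1
      obtain ⟨d, rfl⟩ := Nat.exists_eq_add_of_lt hv
      have : v + d + 1 - v = d + 1 := by omega
      rw [this]
      ring
    rw [e1]
    congr 2
    · ring
    · congr 1
      push_cast
      ring

theorem MO1_sum {p : ℕ} [Fact p.Prime] (hMOM : MOM_stmt) (χ : MulChar (ZMod p) ℂ) (hχ : χ ≠ 1)
    (k W i : ℕ) (hk : 0 < k) (hW : 2 * W + 1 < p) :
    ∑ x : ZMod p, ‖∑ v ∈ range W, c1 χ x (i * W + v)‖ ^ (2 * k) ≤
      (k : ℝ) ^ (2 * k) * (W : ℝ) ^ k * p + (W : ℝ) ^ (2 * k) * (4 * k * Real.sqrt p) := by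
  have h1 : ∑ x : ZMod p, ‖∑ v ∈ range W, c1 χ x (i * W + v)‖ ^ (2 * k) =
      ∑ x : ZMod p, Ph χ W x ^ (2 * k) := by
    rw [← Equiv.sum_comp (Equiv.subRight ((2 * ((i + 1) * W) : ℕ) : ZMod p))
      (fun x => Ph χ W x ^ (2 * k))]
    refine Finset.sum_congr rfl fun x _ => ?_
    rw [MO1_block]
    rfl
  rw [h1]
  exact hMOM p χ hχ k W hk hW

/-- **MO1** -/
theorem MO1 (hMOM : MOM_stmt) : MO1_stmt := by
  intro p _ χ hχ k n hk hp
  set R : ℝ := (k : ℝ) ^ (2 * k) * ((2 : ℝ) ^ n) ^ k * p +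
      ((2 : ℝ) ^ n) ^ (2 * k) * (4 * k * Real.sqrt p) with hR
  have hR0 : 0 ≤ R := by positivity
  have hblk : ∀ l ∈ range (n + 1), ∑ i ∈ range (2 ^ (n - l)), ∑ x : ZMod p,
      ‖∑ v ∈ range (2 ^ l), c1 χ x (i * 2 ^ l + v)‖ ^ (2 * k) ≤ R := by
    intro l hl
    rw [Finset.mem_range] at hl
    have hle : 2 ^ l ≤ 2 ^ n := Nat.pow_le_pow_right (by norm_num) (by omega)
    have hW : 2 * 2 ^ l + 1 < p := by omega
    calc ∑ i ∈ range (2 ^ (n - l)), ∑ x : ZMod p,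
          ‖∑ v ∈ range (2 ^ l), c1 χ x (i * 2 ^ l + v)‖ ^ (2 * k)
        ≤ ∑ i ∈ range (2 ^ (n - l)), ((k : ℝ) ^ (2 * k) * (((2 ^ l : ℕ) : ℝ)) ^ k * p +
            (((2 ^ l : ℕ) : ℝ)) ^ (2 * k) * (4 * k * Real.sqrt p)) :=
          Finset.sum_le_sum fun i _ => MO1_sum hMOM χ hχ k (2 ^ l) i hk hW
      _ = (2 : ℝ) ^ (n - l) * ((k : ℝ) ^ (2 * k) * ((2 : ℝ) ^ l) ^ k * p +
            ((2 : ℝ) ^ l) ^ (2 * k) * (4 * k * Real.sqrt p)) := by
          rw [Finset.sum_const, Finset.card_range, nsmul_eq_mul]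
          push_cast
          rfl
      _ ≤ R := by
          have key : ∀ m : ℕ, 0 < m → (2 : ℝ) ^ (n - l) * ((2 : ℝ) ^ l) ^ m ≤ ((2 : ℝ) ^ n) ^ m := by
            intro m hm
            have e : (2 : ℝ) ^ n = (2 : ℝ) ^ (n - l) * (2 : ℝ) ^ l := by
              rw [← pow_add]
              congr 1
              omega
            rw [e, mul_pow]
            refine mul_le_mul_of_nonneg_right ?_ (by positivity)
            exact le_self_pow₀ (one_le_pow₀ (by norm_num)) hm.ne'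
          have k1 := key k hk
          have k2 := key (2 * k) (by omega)
          have a1 : (0 : ℝ) ≤ (k : ℝ) ^ (2 * k) * p := by positivity
          have a2 : (0 : ℝ) ≤ 4 * k * Real.sqrt p := by positivity
          rw [hR]
          nlinarith [mul_le_mul_of_nonneg_left k1 a1, mul_le_mul_of_nonneg_right k2 a2]
  have hQ : ∑ x : ZMod p, Qd k n (c1 χ x) ≤ ((n : ℝ) + 1) * R := by
    unfold Qd
    rw [Finset.sum_comm]
    calc ∑ l ∈ range (n + 1), ∑ x : ZMod p, ∑ i ∈ range (2 ^ (n - l)),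
          ‖∑ v ∈ range (2 ^ l), c1 χ x (i * 2 ^ l + v)‖ ^ (2 * k)
        ≤ ∑ l ∈ range (n + 1), R := by
          refine Finset.sum_le_sum fun l hl => ?_
          rw [Finset.sum_comm]
          exact hblk l hl
      _ = ((n : ℝ) + 1) * R := by
          rw [Finset.sum_const, Finset.card_range, nsmul_eq_mul]
          push_cast
          rfl
  calc ∑ x : ZMod p, mj k n (c1 χ x) ^ (2 * k)
      = (2 * ((n : ℝ) + 1)) ^ (2 * k) * ∑ x : ZMod p, Qd k n (c1 χ x) := by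
        rw [Finset.mul_sum]
        exact Finset.sum_congr rfl fun x _ => MO1_mj k n hk _
    _ ≤ (2 * ((n : ℝ) + 1)) ^ (2 * k) * (((n : ℝ) + 1) * R) :=
        mul_le_mul_of_nonneg_left hQ (by positivity)
    _ ≤ (2 * ((n : ℝ) + 1)) ^ (2 * k + 1) * R := by
        rw [pow_succ, mul_assoc]
        refine mul_le_mul_of_nonneg_left ?_ (by positivity)
        have : (0 : ℝ) ≤ (n : ℝ) + 1 := by positivity
        nlinarith [mul_nonneg this hR0]

end Pool.Agent.PJ
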